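import Pool.Agent.N754.LG.Stm

/-!
Project LG (helper754): the ring of logarithmic forms, logarithmic general type (helper40).
-/

set_option autoImplicit false

open FF Pool.Agent.W603.LV

namespace Pool.Agent.N40.LG

open Pool.Agent.N754.LG
open Pool.Agent.W602.GT (Divisorial DerReg DerLog LogGeneralType LogAt RegAt IsPluri ge_logder_reg)

variable {k K : Type} [Field k] [Field K] [Algebra k K]

lemma rho_log {w : ℕ} (b : Fin w → K) (P : Place k K) (E : Fin w → Derivation k K K)
    (hE : ∀ a, DerLog P (E a)) : Ge P 0 (rho b E) := by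
  unfold rho
  exact ge_det P _ 0 (fun _ _ => 0) (fun i j => hE i (b j)) (fun σ => by simp)

lemma rho_reg {w : ℕ} (b : Fin w → K) (hb : ∀ j, b j ≠ 0) (P : Place k K)
    (E : Fin w → Derivation k K K) (hE : ∀ a, DerReg P (E a)) (h0 : ∀ j, P.ord (b j) = 0) :
    Ge P 0 (rho b E) := by
  unfold rho
  exact ge_det P _ 0 (fun _ _ => 0) (fun i j => ge_logder_reg (hE i) (hb j) (h0 j)) (fun σ => by simp)

/-- an element with a monic equation with suitable coefficients -/
lemma integral {P : Place k K} {ρ f : K} (hρ : Ge P 0 ρ) (m : ℕ) (q : Polynomial K) (hq : q.Monic)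
    (hc : ∀ i, Ge P 0 (q.coeff i * ρ ^ m)) (h0 : q.eval f = 0) : Ge P 0 (f * ρ ^ m) := by
  obtain ⟨d, hd⟩ : ∃ d, d = q.natDegree := ⟨_, rfl⟩
  obtain ⟨F, hF⟩ : ∃ F, F = f * ρ ^ m := ⟨_, rfl⟩
  rw [← hF]
  rw [Polynomial.eval_eq_sum_range, Finset.sum_range_succ, ← hd] at h0
  have hlead : q.coeff d = 1 := by rw [hd]; exact hq.coeff_natDegree
  rw [hlead, one_mul] at h0
  rcases Nat.eq_zero_or_pos d with hd0 | hd0
  · rw [hd0] at h0
    simp at h0
  have h1 : F ^ d = -∑ i ∈ Finset.range d, (q.coeff i * ρ ^ m) * (ρ ^ (m * (d - 1 - i)) * F ^ i) := by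
    have h2 : F ^ d = ρ ^ (m * d) * f ^ d := by rw [hF, mul_pow, ← pow_mul, mul_comm]
    have h3 : f ^ d = -∑ i ∈ Finset.range d, q.coeff i * f ^ i := by
      rw [eq_neg_iff_add_eq_zero, add_comm]; exact h0
    rw [h2, h3, mul_neg, Finset.mul_sum]
    congr 1
    apply Finset.sum_congr rfl
    intro i hi
    rw [Finset.mem_range] at hi
    have h4 : m * d = m + m * (d - 1 - i) + m * i := by
      have h5 : d = 1 + (d - 1 - i) + i := by omega
      calc m * d = m * (1 + (d - 1 - i) + i) := by rw [← h5]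
        _ = _ := by ring
    rw [h4, hF, mul_pow, pow_add, pow_add, ← pow_mul ρ m i]
    ring
  by_contra hcon
  unfold Ge at hcon
  push Not at hcon
  obtain ⟨hF0, hFn⟩ := hcon
  have h2 : Ge P (((d - 1 : ℕ) : ℤ) * P.ord F) (F ^ d) := by
    rw [h1]
    apply Ge.neg
    apply Ge.sum
    intro i hi
    rw [Finset.mem_range] at hi
    have h3 : Ge P ((i : ℤ) * P.ord F) (F ^ i) := Ge.pow (Or.inr le_rfl) i
    have h4 : Ge P 0 (ρ ^ (m * (d - 1 - i))) := by simpa using hρ.pow (m * (d - 1 - i))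
    have h5 := (hc i).mul (h4.mul h3)
    refine h5.mono ?_
    rw [zero_add, zero_add]
    apply mul_le_mul_of_nonpos_right _ hFn.le
    exact_mod_cast (show i ≤ d - 1 by omega)
  rcases h2 with h2 | h2
  · exact hF0 (pow_eq_zero_iff (by omega) |>.1 h2)
  · rw [P.ord_pow] at h2
    have h3 : (d : ℤ) = ((d - 1 : ℕ) : ℤ) + 1 := by omega
    rw [h3] at h2
    nlinarith

lemma pow_reg {P : Place k K} {ρ f : K} (hρ : Ge P 0 ρ) {m m' : ℕ} (h : m ≤ m')
    (hf : Ge P 0 (f * ρ ^ m)) : Ge P 0 (f * ρ ^ m') := by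
  have h1 : f * ρ ^ m' = (f * ρ ^ m) * ρ ^ (m' - m) := by
    rw [mul_assoc, ← pow_add, Nat.add_sub_cancel' h]
  rw [h1]
  have h2 : Ge P 0 (ρ ^ (m' - m)) := by simpa using hρ.pow (m' - m)
  simpa using hf.mul h2

theorem ra1 : RA1 := by
  intro k K _ _ _ _ w b C hb hC
  refine ⟨?_, ?_, ?_, ?_, ?_⟩
  · rintro m m' f ⟨h1, h2⟩ hm
    exact ⟨fun P hP E hE => pow_reg (rho_log b P E hE) hm (h1 P hP E hE),
      fun P hP hCP E hE => pow_reg (rho_reg b hb P E hE (hC P hCP)) hm (h2 P hP hCP E hE)⟩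
  · rintro m f g ⟨h1, h2⟩ ⟨h3, h4⟩
    refine ⟨fun P hP E hE => ?_, fun P hP hCP E hE => ?_⟩
    · rw [add_mul]; exact Ge.add (N := 0) (h1 P hP E hE) (h3 P hP E hE)
    · rw [add_mul]; exact Ge.add (N := 0) (h2 P hP hCP E hE) (h4 P hP hCP E hE)
  · rintro m m' f g ⟨h1, h2⟩ ⟨h3, h4⟩
    have e : ∀ ρ : K, f * g * ρ ^ (m + m') = (f * ρ ^ m) * (g * ρ ^ m') := by
      intro ρ; rw [pow_add]; ring
    refine ⟨fun P hP E hE => ?_, fun P hP hCP E hE => ?_⟩
    · rw [e]; exact P.reg_mul (h1 P hP E hE) (h3 P hP E hE)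
    · rw [e]; exact P.reg_mul (h2 P hP hCP E hE) (h4 P hP hCP E hE)
  · intro c
    refine ⟨fun P hP E hE => ?_, fun P hP hCP E hE => ?_⟩
    · rw [pow_zero, mul_one]; exact P.reg_const c
    · rw [pow_zero, mul_one]; exact P.reg_const c
  · intro m q f hq hc h0
    exact ⟨fun P hP E hE => integral (rho_log b P E hE) m q hq (fun i => (hc i).1 P hP E hE) h0,
      fun P hP hCP E hE => integral (rho_reg b hb P E hE (hC P hCP)) m q hq
        (fun i => (hc i).2 P hP hCP E hE) h0⟩

lemma sum_smul_apply {w : ℕ} (c : Fin w → K) (D : Fin w → Derivation k K K) (f : K) :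
    (∑ i, c i • D i) f = ∑ i, c i * D i f := by
  have h0 : ∀ s : Finset (Fin w), (∑ i ∈ s, c i • D i) f = ∑ i ∈ s, c i * D i f := by
    intro s
    classical
    induction s using Finset.induction_on with
    | empty => simp
    | insert i s hi ih =>
      rw [Finset.sum_insert hi, Finset.sum_insert hi, Derivation.add_apply, ih]
      rfl
  exact h0 _

lemma rho_subst {w : ℕ} (b : Fin w → K) (A : Matrix (Fin w) (Fin w) K)
    (D : Fin w → Derivation k K K) :
    rho b (fun i => ∑ j, A i j • D j) = A.det * rho b D := by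
  unfold rho
  rw [← Matrix.det_mul]
  congr 1
  ext i l
  rw [Matrix.mul_apply, Matrix.of_apply, sum_smul_apply, Finset.sum_div]
  apply Finset.sum_congr rfl
  intro j _
  rw [Matrix.of_apply, mul_div_assoc]

theorem ra3 : RA3 := by
  intro k K _ _ _ _ w b C D hD hb hC htr f hf hm
  obtain ⟨m, hm⟩ := hm
  obtain ⟨r1, -, -, r4, -⟩ := ra1 k K w b C hb hC
  have hfN : ∀ i, InR b C (m + 1) (f i) := fun i => r1 m (m + 1) (f i) (hm i) (Nat.le_succ m)
  have h1N : InR b C (m + 1) 1 := by
    have h := r4 1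
    rw [map_one] at h
    exact r1 0 (m + 1) 1 h (Nat.zero_le _)
  have hrD : rho b D = 1 := by
    unfold rho
    have : (Matrix.of fun a j => D a (b j) / b j) = (1 : Matrix (Fin w) (Fin w) K) := by
      ext a j
      rw [Matrix.of_apply, hD.1 a j, Matrix.one_apply]
      by_cases h : a = j
      · rw [if_pos h, if_pos h, div_self (hb j)]
      · rw [if_neg h, if_neg h, zero_div]
    rw [this, Matrix.det_one]
  refine ⟨htr, m + 1, Nat.succ_pos m,
    Fin.cons (fun E => rho b E ^ (m + 1)) (fun i E => f i * rho b E ^ (m + 1)), ?_, ?_, ?_, D, ?_, ?_⟩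
  · intro j A E
    refine Fin.cases ?_ (fun i => ?_) j
    · simp only [Fin.cons_zero]
      rw [rho_subst, mul_pow]
    · simp only [Fin.cons_succ]
      rw [rho_subst, mul_pow]
      ring
  · intro P hP j E hE
    refine Fin.cases ?_ (fun i => ?_) j
    · have h := h1N.1 P hP E hE
      rw [one_mul] at h
      simpa only [Fin.cons_zero] using h
    · simpa only [Fin.cons_succ] using (hfN i).1 P hP E hE
  · intro P hP hCP j E hE
    have hCP' : C P := not_not.1 hCP
    refine Fin.cases ?_ (fun i => ?_) j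
    · have h := h1N.2 P hP hCP' E hE
      rw [one_mul] at h
      simpa only [Fin.cons_zero] using h
    · simpa only [Fin.cons_succ] using (hfN i).2 P hP hCP' E hE
  · simp only [Fin.cons_zero]
    rw [hrD, one_pow]
    exact one_ne_zero
  · have h : (fun i : Fin w => (Fin.cons (fun E => rho b E ^ (m + 1))
        (fun i E => f i * rho b E ^ (m + 1)) : Fin (w + 1) → (Fin w → Derivation k K K) → K) i.succ D /
        (Fin.cons (fun E => rho b E ^ (m + 1))
        (fun i E => f i * rho b E ^ (m + 1)) : Fin (w + 1) → (Fin w → Derivation k K K) → K) 0 D) = f := by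
      funext i
      simp only [Fin.cons_zero, Fin.cons_succ]
      rw [hrD, one_pow, mul_one, div_one]
    rw [h]
    exact hf

end Pool.Agent.N40.LG
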